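import Mathlib

set_option autoImplicit false

namespace Pool.Agent.Y884.FC

/-- the state of the induction: a doubly infinite increasing sequence `d` of integers, periodic
modulo `N = 2 ^ (m+1) - 1` with `M` terms in a period and gaps at least `2 ^ i`, each term of which
is `2 ^ i * c` modulo `N` for some `c` satisfying the first `i` constraints -/
def St (m : ℕ) (w : ℕ → ℤ) (i : ℕ) (M : ℤ) : Prop :=
  ∃ d : ℤ → ℤ, (∀ a, d a + 2 ^ i ≤ d (a + 1)) ∧ (∀ a, d (a + M) = d a + (2 ^ (m + 1) - 1)) ∧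
    ∀ a, ∃ c : ℤ, ((2 : ℤ) ^ (m + 1) - 1) ∣ (2 ^ i * c - d a) ∧
      ∀ l < i, ∃ p : ℤ, w l ≤ p ∧ p ≤ w l + 2 ^ m - 2 ∧ ((2 : ℤ) ^ (m + 1) - 1) ∣ (2 ^ l * c - p)

theorem gaps {d : ℤ → ℤ} {g : ℤ} (h : ∀ a, d a + g ≤ d (a + 1)) (n : ℕ) :
    ∀ a, d a + n * g ≤ d (a + n) := by
  induction n with
  | zero => intro a; simp
  | succ n ih =>
    intro a
    have h1 := ih a
    have h2 := h (a + n)
    push_cast
    rw [← add_assoc]
    nlinarith

theorem gaps' {d : ℤ → ℤ} {g : ℤ} (h : ∀ a, d a + g ≤ d (a + 1)) (a b : ℤ) (hab : a ≤ b) :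
    d a + (b - a) * g ≤ d b := by
  obtain ⟨n, hn⟩ := Int.eq_ofNat_of_zero_le (sub_nonneg.2 hab)
  have := gaps h n a
  rw [hn]
  have hb : b = a + (n : ℤ) := by omega
  rw [hb]
  exact this

theorem step (m : ℕ) (w : ℕ → ℤ) (i j : ℕ) (hij : i + (j + 1) = m)
    (h : St m w i (2 ^ (j + 2) - 1)) : St m w (i + 1) (2 ^ (j + 1) - 1) := by
  obtain ⟨d, hg, hp, hc⟩ := h
  have hi1 : (1 : ℤ) ≤ 2 ^ i := one_le_pow₀ (by norm_num)
  have hj1 : (1 : ℤ) ≤ 2 ^ j := one_le_pow₀ (by norm_num)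
  have hm : (2 : ℤ) ^ m = 2 ^ i * (2 ^ j * 2) := by rw [← hij, pow_add, pow_succ]
  have hj2 : (2 : ℤ) ^ (j + 2) = 4 * 2 ^ j := by ring
  have hj3 : (2 : ℤ) ^ (j + 1) = 2 * 2 ^ j := by ring
  have hm1 : (2 : ℤ) ^ (m + 1) = 2 * 2 ^ m := by ring
  -- the first index in the window
  obtain ⟨a₀, ha₀, hleast⟩ := Int.exists_least_of_bdd (P := fun z => w i ≤ d z)
    ⟨min 0 (w i - d 0), by
      intro z hz
      by_contra hcon
      push Not at hcon
      have h1 : z < 0 := lt_of_lt_of_le hcon (min_le_left _ _)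
      have h2 : z < w i - d 0 := lt_of_lt_of_le hcon (min_le_right _ _)
      have h3 := gaps' hg z 0 h1.le
      have h4 : (0 - z) * 1 ≤ (0 - z) * 2 ^ i := mul_le_mul_of_nonneg_left hi1 (by omega)
      have h5 : w i ≤ d z := hz
      omega⟩
    ⟨max 0 (w i - d 0), by
      have h3 := gaps' hg 0 (max 0 (w i - d 0)) (le_max_left _ _)
      have h4 : (max 0 (w i - d 0) - 0) * 1 ≤ (max 0 (w i - d 0) - 0) * 2 ^ i :=
        mul_le_mul_of_nonneg_left hi1 (by simp)
      have h5 : w i - d 0 ≤ max 0 (w i - d 0) := le_max_right _ _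
      show w i ≤ d _
      omega⟩
  have hpred : d (a₀ - 1) ≤ w i - 1 := by
    by_contra hcon
    push Not at hcon
    have := hleast (a₀ - 1) (by show w i ≤ d (a₀ - 1); omega)
    omega
  have hM' : (0 : ℤ) < 2 ^ (j + 1) - 1 := by rw [hj3]; omega
  -- the terms `a₀, …, a₀ + M' - 1` lie in the window
  have hwin : ∀ r : ℤ, 0 ≤ r → r < 2 ^ (j + 1) - 1 →
      w i ≤ d (a₀ + r) ∧ d (a₀ + r) ≤ w i + 2 ^ m - 2 := by
    intro r hr0 hr
    constructor
    · have h1 := gaps' hg a₀ (a₀ + r) (by omega)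
      have h2 : 0 ≤ (a₀ + r - a₀) * 2 ^ i := mul_nonneg (by omega) (by omega)
      have h3 : w i ≤ d a₀ := ha₀
      omega
    · have h1 := gaps' hg (a₀ + r) (a₀ - 1 + (2 ^ (j + 2) - 1)) (by rw [hj2]; omega)
      rw [hp (a₀ - 1)] at h1
      have h2 : (2 ^ j * 2) * 2 ^ i ≤ (a₀ - 1 + (2 ^ (j + 2) - 1) - (a₀ + r)) * 2 ^ i := by
        apply mul_le_mul_of_nonneg_right _ (by omega)
        rw [hj2]; omega
      have h3 : (2 ^ j * 2) * 2 ^ i = (2 : ℤ) ^ m := by rw [hm]; ring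
      omega
  have hspan : 2 * (d (a₀ + (2 ^ (j + 1) - 1 - 1)) - d a₀) ≤ 2 ^ (m + 1) - 1 - 2 * 2 ^ i := by
    have h1 := gaps' hg (a₀ + (2 ^ (j + 1) - 1 - 1)) (a₀ + (2 ^ (j + 2) - 1)) (by
      rw [hj2, hj3]; omega)
    rw [hp a₀] at h1
    have h2 : (a₀ + (2 ^ (j + 2) - 1) - (a₀ + (2 ^ (j + 1) - 1 - 1))) * 2 ^ i
        = 2 ^ m + 2 ^ i := by
      rw [hj2, hj3, hm]; ring
    omega
  refine ⟨fun b => 2 * d (a₀ + b % (2 ^ (j + 1) - 1)) + (b / (2 ^ (j + 1) - 1)) *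
    (2 ^ (m + 1) - 1), ?_, ?_, ?_⟩
  · intro b
    dsimp only
    set M' : ℤ := 2 ^ (j + 1) - 1 with hM'def
    have hmod0 := Int.emod_nonneg b hM'.ne'
    have hmod1 := Int.emod_lt_of_pos b hM'
    have hdm := Int.emod_add_mul_ediv b M'
    have hpow : (2 : ℤ) ^ (i + 1) = 2 * 2 ^ i := by ring
    rw [hpow]
    by_cases hcase : b % M' + 1 < M'
    · have e1 : (b + 1) / M' = b / M' := by
        rw [Int.ediv_eq_iff_of_pos hM']
        constructor
        · nlinarith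
        · nlinarith
      have e2 : (b + 1) % M' = b % M' + 1 := by
        have := Int.emod_add_mul_ediv (b + 1) M'
        rw [e1] at this
        linarith
      rw [e1, e2]
      have h1 := hg (a₀ + b % M')
      rw [← add_assoc]
      linarith
    · have hr : b % M' = M' - 1 := by omega
      have e1 : (b + 1) / M' = b / M' + 1 := by
        rw [Int.ediv_eq_iff_of_pos hM']
        constructor
        · nlinarith
        · nlinarith
      have e2 : (b + 1) % M' = 0 := by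
        have := Int.emod_add_mul_ediv (b + 1) M'
        rw [e1] at this
        nlinarith
      rw [e1, e2, hr, add_zero]
      linarith
  · intro b
    dsimp only
    rw [Int.add_emod_right, Int.add_ediv_of_dvd_right (dvd_refl _), Int.ediv_self hM'.ne']
    ring
  · intro b
    dsimp only
    obtain ⟨c, hc1, hc2⟩ := hc (a₀ + b % (2 ^ (j + 1) - 1))
    refine ⟨c, ?_, ?_⟩
    · have e : (2 : ℤ) ^ (i + 1) * c - (2 * d (a₀ + b % (2 ^ (j + 1) - 1)) +
          (b / (2 ^ (j + 1) - 1)) * (2 ^ (m + 1) - 1))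
          = 2 * (2 ^ i * c - d (a₀ + b % (2 ^ (j + 1) - 1))) -
            (b / (2 ^ (j + 1) - 1)) * (2 ^ (m + 1) - 1) := by ring
      rw [e]
      exact dvd_sub (Dvd.dvd.mul_left hc1 _) (Dvd.intro_left _ rfl)
    · intro l hl
      rcases Nat.lt_succ_iff_lt_or_eq.1 hl with h | h
      · exact hc2 l h
      · subst h
        obtain ⟨h1, h2⟩ := hwin (b % (2 ^ (j + 1) - 1)) (Int.emod_nonneg b hM'.ne')
          (Int.emod_lt_of_pos b hM')
        exact ⟨_, h1, h2, hc1⟩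

/-- **Covering the discrete torus by cubes.** With `N = 2 ^ (m+1) - 1`, for any `m` cyclic
intervals of length `2 ^ m - 1` modulo `N` there is `c` such that `2 ^ l * c` lies in the `l`-th
interval for all `l < m`. -/
theorem cube_cover (m : ℕ) (w : ℕ → ℤ) :
    ∃ c : ℤ, ∀ l < m, ∃ p : ℤ, w l ≤ p ∧ p ≤ w l + 2 ^ m - 2 ∧
      ((2 : ℤ) ^ (m + 1) - 1) ∣ (2 ^ l * c - p) := by
  have key : ∀ i j : ℕ, i + j = m → St m w i (2 ^ (j + 1) - 1) := by
    intro i
    induction i with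
    | zero =>
      intro j hj
      have hj' : j = m := by omega
      subst hj'
      refine ⟨fun a => a, fun a => by simp, fun a => rfl, fun a => ⟨a, by simp, ?_⟩⟩
      intro l hl
      omega
    | succ i ih =>
      intro j hj
      exact step m w i j (by omega) (ih (j + 1) (by omega))
  obtain ⟨d, _, _, hc⟩ := key m 0 (by omega)
  obtain ⟨c, _, hc⟩ := hc 0
  exact ⟨c, hc⟩

end Pool.Agent.Y884.FC
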